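import Pool.Agent.N428.WD.Tree

set_option autoImplicit false

namespace N428.WD

/-- vertices: a reversed tree (`false`) and a tree (`true`) -/
abbrev VV := Bool × T

/-- the weights: `pB` on the tree part, reversed `pB` on the other part, and `1/13` from every vertex of
the reversed part to every vertex of the tree part -/
noncomputable def pp : VV → VV → ℝ
  | (true, x), (true, y) => pB x y
  | (false, x), (false, y) => pB y x
  | (false, _), (true, _) => 1 / 13
  | (true, _), (false, _) => 0

lemma pp_tt (x y : T) : pp (true, x) (true, y) = pB x y := rfl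
lemma pp_ff (x y : T) : pp (false, x) (false, y) = pB y x := rfl
lemma pp_ft (x y : T) : pp (false, x) (true, y) = 1 / 13 := rfl
lemma pp_tf (x y : T) : pp (true, x) (false, y) = 0 := rfl

lemma card_T : Fintype.card T = 13 := by
  simp [T, Fintype.card_option, Fintype.card_prod]

lemma pp_range (u v : VV) : 0 ≤ pp u v ∧ pp u v ≤ 1 := by
  obtain ⟨_ | _, x⟩ := u <;> obtain ⟨_ | _, y⟩ := v
  · rw [pp_ff]; exact ⟨pB_nonneg _ _, pB_le_one _ _⟩
  · rw [pp_ft]; norm_num
  · rw [pp_tf]; norm_num
  · rw [pp_tt]; exact ⟨pB_nonneg _ _, pB_le_one _ _⟩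

lemma pp_self (u : VV) : pp u u = 0 := by
  obtain ⟨_ | _, x⟩ := u
  · rw [pp_ff]; exact pB_self x
  · rw [pp_tt]; exact pB_self x

lemma sum_VV (f : VV → ℝ) : ∑ v, f v = ∑ y, f (true, y) + ∑ y, f (false, y) := by
  rw [Fintype.sum_prod_type, Fintype.sum_bool]

lemma pp_out (u : VV) : 1 ≤ ∑ v, pp u v := by
  rw [sum_VV]
  obtain ⟨_ | _, x⟩ := u
  · simp only [pp_ff, pp_ft, Finset.sum_const, Finset.card_univ, card_T]
    have : 0 ≤ ∑ y, pB y x := Finset.sum_nonneg fun y _ => pB_nonneg y x
    norm_num
    exact this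
  · simp only [pp_tt, pp_tf, Finset.sum_const_zero, add_zero]
    rw [pB_sum]

lemma pp_in (u : VV) : 1 ≤ ∑ v, pp v u := by
  rw [sum_VV]
  obtain ⟨_ | _, x⟩ := u
  · simp only [pp_ff, pp_tf, Finset.sum_const_zero, zero_add]
    rw [pB_sum]
  · simp only [pp_tt, pp_ft, Finset.sum_const, Finset.card_univ, card_T]
    have : 0 ≤ ∑ y, pB y x := Finset.sum_nonneg fun y _ => pB_nonneg y x
    norm_num
    exact this

/-- a cycle stays in one of the two parts -/
lemma part {k : ℕ} (c : Fin (k + 2) → VV) (h : ∀ i, pp (c i) (c (i + 1)) ≠ 0) :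
    (∀ i, (c i).1 = true) ∨ (∀ i, (c i).1 = false) := by
  by_cases hex : ∃ a, (c a).1 = true
  · left
    obtain ⟨a, ha⟩ := hex
    have step : ∀ i, (c i).1 = true → (c (i + 1)).1 = true := by
      intro i hi
      have hh := h i
      rcases hci : c i with ⟨b, x⟩
      rcases hci' : c (i + 1) with ⟨b', y⟩
      rw [hci] at hi
      simp only at hi
      subst hi
      rw [hci, hci'] at hh
      cases b'
      · exact absurd (pp_tf x y) hh
      · rfl
    have all : ∀ b : Fin (k + 2), (c (a + b)).1 = true := by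
      intro b
      induction b using Fin.induction with
      | zero => simpa using ha
      | succ i ih =>
        have := step _ ih
        rw [add_assoc, Fin.coeSucc_eq_succ] at this
        exact this
    intro i
    have := all (i - a)
    simpa using this
  · right
    intro i
    cases hb : (c i).1
    · rfl
    · exact absurd ⟨i, hb⟩ hex

theorem main :
    ¬ (∀ (V : Type) [Fintype V] [Nonempty V] (G : Digraph V) (p : V → V → ℝ),
      (∀ v, ¬ G.Adj v v) →
      (∀ u v, 0 ≤ p u v ∧ p u v ≤ 1) →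
      (∀ u v, ¬ G.Adj u v → p u v = 0) →
      (∀ u, 1 ≤ ∑ v, p u v) →
      (∀ u, 1 ≤ ∑ v, p v u) →
      ∃ (k : ℕ) (c : Fin (k + 2) → V),
        Function.Injective c ∧
        (∀ i, G.Adj (c i) (c (i + 1))) ∧
        1 ≤ ∑ i, p (c i) (c (i + 1))) := by
  intro H
  obtain ⟨k, c, hc, hadj, hsum⟩ := H VV ⟨fun u v => pp u v ≠ 0⟩ pp
    (fun v h => h (pp_self v)) pp_range (fun u v h => by simpa using h) pp_out pp_in
  have h : ∀ i, pp (c i) (c (i + 1)) ≠ 0 := hadj
  rcases part c h with hp | hp
  · have e : ∀ i, c i = (true, (c i).2) := fun i => Prod.ext (hp i) rfl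
    have e2 : ∀ i, pp (c i) (c (i + 1)) = pB (c i).2 (c (i + 1)).2 := by
      intro i
      rw [e i, e (i + 1)]
      rfl
    have := cycle_B (fun i => (c i).2) (fun x y hxy => hc (by rw [e x, e y]; simp only at hxy; rw [hxy]))
      (fun i => by rw [← e2 i]; exact h i)
    simp only [e2] at hsum
    linarith
  · have e : ∀ i, c i = (false, (c i).2) := fun i => Prod.ext (hp i) rfl
    have e2 : ∀ i, pp (c i) (c (i + 1)) = pB (c (i + 1)).2 (c i).2 := by
      intro i
      rw [e i, e (i + 1)]
      rfl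
    have := cycle_A (fun i => (c i).2) (fun x y hxy => hc (by rw [e x, e y]; simp only at hxy; rw [hxy]))
      (fun i => by rw [← e2 i]; exact h i)
    simp only [e2] at hsum
    linarith

end N428.WD
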