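import Mathlib

set_option autoImplicit false

namespace N428.WD

/-- rooted tree: root `none`, two children `some (i, none)`, five leaves `some (i, some j)` below each -/
abbrev T := Option (Fin 2 × Option (Fin 5))

/-- the weights of the one-sided example -/
noncomputable def pB : T → T → ℝ
  | none, some (_, none) => 1 / 2
  | some (i, none), some (i', some _) => if i = i' then 1 / 5 else 0
  | some (_, some _), none => 1 / 4
  | some (i, some _), some (i', none) => if i = i' then 3 / 4 else 0
  | none, none => 0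
  | none, some (_, some _) => 0
  | some (_, none), none => 0
  | some (_, none), some (_, none) => 0
  | some (_, some _), some (_, some _) => 0

lemma pB_nonneg (x y : T) : 0 ≤ pB x y := by
  rcases x with _ | ⟨i, _ | j⟩ <;> rcases y with _ | ⟨i', _ | j'⟩ <;> simp only [pB] <;>
    (try split_ifs) <;> norm_num

lemma pB_le_one (x y : T) : pB x y ≤ 1 := by
  rcases x with _ | ⟨i, _ | j⟩ <;> rcases y with _ | ⟨i', _ | j'⟩ <;> simp only [pB] <;>
    (try split_ifs) <;> norm_num

lemma pB_self (x : T) : pB x x = 0 := by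
  rcases x with _ | ⟨i, _ | j⟩ <;> simp [pB]

lemma pB_sum (x : T) : ∑ y, pB x y = 1 := by
  rcases x with _ | ⟨i, _ | j⟩
  · simp only [Fintype.sum_option, Fintype.sum_prod_type, pB]
    norm_num
  · simp only [Fintype.sum_option, Fintype.sum_prod_type, pB]
    fin_cases i <;> norm_num
  · simp only [Fintype.sum_option, Fintype.sum_prod_type, pB]
    fin_cases i <;> norm_num

lemma next_root {y : T} (h : pB none y ≠ 0) : ∃ i, y = some (i, none) := by
  rcases y with _ | ⟨i', _ | j'⟩
  · simp [pB] at h
  · exact ⟨i', rfl⟩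
  · simp [pB] at h

lemma next_child {i : Fin 2} {y : T} (h : pB (some (i, none)) y ≠ 0) :
    ∃ j, y = some (i, some j) := by
  rcases y with _ | ⟨i', _ | j'⟩
  · simp [pB] at h
  · simp [pB] at h
  · simp only [pB] at h
    by_cases hi : i = i'
    · subst hi; exact ⟨j', rfl⟩
    · simp [hi] at h

lemma next_leaf {i : Fin 2} {j : Fin 5} {y : T} (h : pB (some (i, some j)) y ≠ 0) :
    y = none ∨ y = some (i, none) := by
  rcases y with _ | ⟨i', _ | j'⟩
  · exact Or.inl rfl
  · simp only [pB] at h
    by_cases hi : i = i'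
    · subst hi; exact Or.inr rfl
    · simp [hi] at h
  · simp [pB] at h

lemma sum_shift {k : ℕ} (f : Fin (k + 2) → ℝ) (a : Fin (k + 2)) :
    ∑ i, f i = ∑ i, f (a + i) := by
  rw [← Equiv.sum_comp (Equiv.addLeft a) f]
  rfl

lemma three_zero {k : ℕ} (h : (1 : Fin (k + 2)) + (1 + 1) = 0) : k = 1 := by
  rcases k with _ | _ | m
  · exact absurd h (by decide)
  · rfl
  · exfalso
    have h' := congrArg Fin.val h
    simp only [Fin.val_add, Fin.val_one, Fin.val_zero] at h'
    have e1 : (1 + 1) % (m + 1 + 1 + 2) = 2 := Nat.mod_eq_of_lt (by omega)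
    rw [e1] at h'
    have e2 : (1 + 2) % (m + 1 + 1 + 2) = 3 := Nat.mod_eq_of_lt (by omega)
    rw [e2] at h'
    omega

lemma two_zero {k : ℕ} (h : (1 : Fin (k + 2)) + 1 = 0) : k = 0 := by
  rcases k with _ | m
  · rfl
  · exfalso
    have h' := congrArg Fin.val h
    simp only [Fin.val_add, Fin.val_one, Fin.val_zero] at h'
    have e1 : (1 + 1) % (m + 1 + 2) = 2 := Nat.mod_eq_of_lt (by omega)
    rw [e1] at h'
    omega

/-- every directed cycle of the tree example has weight less than one -/
lemma cycle_B {k : ℕ} (c : Fin (k + 2) → T) (hc : Function.Injective c)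
    (h : ∀ i, pB (c i) (c (i + 1)) ≠ 0) : ∑ i, pB (c i) (c (i + 1)) < 1 := by
  by_cases hr : ∃ a, c a = none
  · obtain ⟨a, ha⟩ := hr
    have h0 := h a
    rw [ha] at h0
    obtain ⟨i, h1⟩ := next_root h0
    have h1' := h (a + 1)
    rw [h1] at h1'
    obtain ⟨j, h2⟩ := next_child h1'
    have h2' := h (a + 1 + 1)
    rw [h2] at h2'
    rcases next_leaf h2' with h3 | h3
    · have e : a + 1 + 1 + 1 = a := hc (by rw [h3, ha])
      rw [add_assoc, add_assoc] at e
      have hk : k = 1 := three_zero (add_eq_left.mp e)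
      subst hk
      rw [sum_shift _ a, Fin.sum_univ_three]
      have e2 : a + 2 = a + 1 + 1 := by rw [add_assoc]; rfl
      rw [e2, add_zero, ha, h1, h2, h3]
      simp only [pB]
      norm_num
    · have e : a + 1 + 1 + 1 = a + 1 := hc (by rw [h3, h1])
      rw [add_assoc (a + 1)] at e
      have hk : k = 0 := two_zero (add_eq_left.mp e)
      subst hk
      have e2 : a + 1 + 1 = a := by
        rw [add_assoc]
        have : (1 : Fin (0 + 2)) + 1 = 0 := by decide
        rw [this, add_zero]
      rw [e2, ha] at h2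
      exact absurd h2 (by simp)
  · have hnone : ∀ a, c a ≠ none := fun a h' => hr ⟨a, h'⟩
    have hchild : ∃ a i, c a = some (i, none) := by
      rcases h0 : c 0 with _ | ⟨i, _ | j⟩
      · exact absurd h0 (hnone 0)
      · exact ⟨0, i, h0⟩
      · have h0' := h 0
        rw [h0] at h0'
        rcases next_leaf h0' with h1 | h1
        · exact absurd h1 (hnone _)
        · exact ⟨_, i, h1⟩
    obtain ⟨a, i, h1⟩ := hchild
    have h1' := h a
    rw [h1] at h1'
    obtain ⟨j, h2⟩ := next_child h1'
    have h2' := h (a + 1)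
    rw [h2] at h2'
    rcases next_leaf h2' with h3 | h3
    · exact absurd h3 (hnone _)
    · have e : a + 1 + 1 = a := hc (by rw [h3, h1])
      rw [add_assoc] at e
      have hk : k = 0 := two_zero (add_eq_left.mp e)
      subst hk
      rw [sum_shift _ a, Fin.sum_univ_two, add_zero, h1, h2, h3]
      simp only [pB]
      norm_num

/-- the same for the reversed example -/
lemma cycle_A {k : ℕ} (c : Fin (k + 2) → T) (hc : Function.Injective c)
    (h : ∀ i, pB (c (i + 1)) (c i) ≠ 0) : ∑ i, pB (c (i + 1)) (c i) < 1 := by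
  have key := cycle_B (fun i => c (-i)) (fun x y hxy => neg_injective (hc hxy)) (by
    intro i
    have := h (-(i + 1))
    rwa [neg_add_rev, add_comm (-1 : Fin (k + 2)) (-i), neg_add_cancel_right,
      ← neg_add_rev, add_comm 1 i] at this)
  refine lt_of_le_of_lt (le_of_eq ?_) key
  rw [← Equiv.sum_comp ((Equiv.neg (Fin (k + 2))).trans (Equiv.addRight (-1))) (fun i => pB (c (i + 1)) (c i))]
  apply Finset.sum_congr rfl
  intro i _
  simp only [Equiv.trans_apply, Equiv.neg_apply, Equiv.coe_addRight]
  rw [neg_add_cancel_right, neg_add_rev, add_comm (-1 : Fin (k + 2)) (-i)]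

end N428.WD
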